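import Pool.Agent.helper26.EC.SpecW

/-!
# ec:XNB (MP_5628fe_nt)
-/

set_option autoImplicit false

namespace Pool.Agent.EC

open Finset ArithmeticFunction
open Pool.Agent.CH (Win)

lemma XNB_nonneg (N j : ℕ) : 0 ≤ fN N j := le_max_left _ _

lemma XNB_le_one (N j : ℕ) : fN N j ≤ 1 := by
  unfold fN tri
  apply max_le zero_le_one
  have : 0 ≤ |Real.log j - vN N| / (1 / (N : ℝ)) := by positivity
  linarith

lemma XNB_half {N j : ℕ} (hN : 3 ≤ N) (h1 : N ^ 3 + N ^ 2 ≤ j) (h2 : 2 * j ≤ 2 * N ^ 3 + 3 * N ^ 2) :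
    1 / 2 ≤ fN N j := by
  have hN0 : (0 : ℝ) < N := by exact_mod_cast (show 0 < N by omega)
  have hN3 : (3 : ℝ) ≤ N := by exact_mod_cast hN
  have h1' : (N : ℝ) ^ 3 + (N : ℝ) ^ 2 ≤ j := by exact_mod_cast h1
  have h2' : 2 * (j : ℝ) ≤ 2 * (N : ℝ) ^ 3 + 3 * (N : ℝ) ^ 2 := by exact_mod_cast h2
  have hj0 : (0 : ℝ) < j := lt_of_lt_of_le (by positivity) h1'
  have e1 : (N : ℝ) ^ 3 + (N : ℝ) ^ 2 = (N : ℝ) ^ 3 * (1 + 1 / N) := by
    field_simp
  have e2 : (N : ℝ) ^ 3 + 3 / 2 * (N : ℝ) ^ 2 = (N : ℝ) ^ 3 * (1 + 3 / (2 * N)) := by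
    field_simp
  have hl : Real.log ((N : ℝ) ^ 3) = 3 * Real.log N := by
    rw [Real.log_pow]; norm_num
  have l1 : 3 * Real.log N + 3 / (4 * N) ≤ Real.log j := by
    have h3 : Real.log ((N : ℝ) ^ 3 * (1 + 1 / N)) ≤ Real.log j := by
      apply Real.log_le_log (by positivity)
      rw [← e1]; exact h1'
    rw [Real.log_mul (by positivity) (by positivity), hl] at h3
    have h4 : 3 / (4 * (N : ℝ)) ≤ Real.log (1 + 1 / N) := by
      rw [Real.le_log_iff_exp_le (by positivity)]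
      have h5 : |3 / (4 * (N : ℝ))| ≤ 1 := by
        rw [abs_of_nonneg (by positivity), div_le_one (by positivity)]
        linarith
      have h6 := (abs_le.mp (Real.abs_exp_sub_one_sub_id_le h5)).2
      have h7 : (3 / (4 * (N : ℝ))) ^ 2 ≤ 1 / (4 * N) := by
        rw [div_pow, div_le_div_iff₀ (by positivity) (by positivity)]
        nlinarith
      have h8 : 1 / (N : ℝ) = 3 / (4 * N) + 1 / (4 * N) := by
        field_simp; norm_num
      rw [h8]
      linarith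
    linarith
  have l2 : Real.log j ≤ 3 * Real.log N + 3 / (2 * N) := by
    have h3 : Real.log j ≤ Real.log ((N : ℝ) ^ 3 * (1 + 3 / (2 * N))) := by
      apply Real.log_le_log hj0
      rw [← e2]; linarith
    rw [Real.log_mul (by positivity) (by positivity), hl] at h3
    have h4 : Real.log (1 + 3 / (2 * (N : ℝ))) ≤ 3 / (2 * N) := by
      have := Real.log_le_sub_one_of_pos (show (0 : ℝ) < 1 + 3 / (2 * N) by positivity)
      linarith
    linarith
  have l3 : |Real.log j - vN N| ≤ 1 / (2 * N) := by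
    unfold vN
    rw [abs_le]
    have h8 : 5 / (4 * (N : ℝ)) = 3 / (4 * N) + 1 / (2 * N) := by
      field_simp; norm_num
    have h9 : 3 / (2 * (N : ℝ)) = 5 / (4 * N) + 1 / (4 * N) := by
      field_simp; norm_num
    have h10 : 1 / (2 * (N : ℝ)) = 1 / (4 * N) + 1 / (4 * N) := by
      field_simp; norm_num
    have h11 : 0 < 1 / (4 * (N : ℝ)) := by positivity
    constructor
    · linarith
    · linarith
  unfold fN tri
  apply le_max_of_le_right
  have l4 : |Real.log j - vN N| / (1 / (N : ℝ)) ≤ 1 / 2 := by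
    rw [div_le_iff₀ (by positivity)]
    calc |Real.log j - vN N| ≤ 1 / (2 * N) := l3
      _ = 1 / 2 * (1 / (N : ℝ)) := by field_simp
  linarith

lemma XNB_supp {N j : ℕ} (hN : 20 ≤ N) (hj : 1 ≤ j) (h : fN N j ≠ 0) :
    N ^ 3 < j ∧ j + 6 < (N + 1) ^ 3 := by
  have hN0 : (0 : ℝ) < N := by exact_mod_cast (show 0 < N by omega)
  have hN3 : (20 : ℝ) ≤ N := by exact_mod_cast hN
  have hj0 : (0 : ℝ) < j := by exact_mod_cast hj
  have hl : Real.log ((N : ℝ) ^ 3) = 3 * Real.log N := by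
    rw [Real.log_pow]; norm_num
  have h1 : |Real.log j - vN N| < 1 / N := by
    by_contra hc
    apply h
    unfold fN tri
    apply max_eq_left
    have : 1 ≤ |Real.log j - vN N| / (1 / (N : ℝ)) := by
      rw [le_div_iff₀ (by positivity)]
      linarith [not_lt.mp hc]
    linarith
  rw [abs_lt] at h1
  unfold vN at h1
  have h8 : 5 / (4 * (N : ℝ)) = 1 / N + 1 / (4 * N) := by
    field_simp; norm_num
  have h9 : 9 / (4 * (N : ℝ)) = 5 / (4 * N) + 1 / N := by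
    field_simp; norm_num
  have h11 : 0 < 1 / (4 * (N : ℝ)) := by positivity
  constructor
  · have h2 : Real.log ((N : ℝ) ^ 3) < Real.log j := by
      rw [hl]; linarith [h1.1]
    have h3 := (Real.log_lt_log_iff (by positivity) hj0).mp h2
    exact_mod_cast h3
  · have h2 : Real.log j < 3 * Real.log N + 9 / (4 * N) := by
      linarith [h1.2]
    have h3 : (j : ℝ) < (N : ℝ) ^ 3 * Real.exp (9 / (4 * N)) := by
      rw [← Real.log_lt_log_iff hj0 (by positivity), Real.log_mul (by positivity) (by positivity), hl,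
        Real.log_exp]
      exact h2
    have h5 : |9 / (4 * (N : ℝ))| ≤ 1 := by
      rw [abs_of_nonneg (by positivity), div_le_one (by positivity)]
      linarith
    have h6 := (abs_le.mp (Real.abs_exp_sub_one_sub_id_le h5)).2
    have h7 : (N : ℝ) ^ 3 * Real.exp (9 / (4 * N)) ≤
        (N : ℝ) ^ 3 * (1 + 9 / (4 * N) + (9 / (4 * N)) ^ 2) :=
      mul_le_mul_of_nonneg_left (by linarith) (by positivity)
    have h12 : (N : ℝ) ^ 3 * (1 + 9 / (4 * N) + (9 / (4 * N)) ^ 2) =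
        (N : ℝ) ^ 3 + 9 / 4 * (N : ℝ) ^ 2 + 81 / 16 * N := by
      field_simp
      ring
    have h13 : ((j : ℝ) + 6) < ((N : ℝ) + 1) ^ 3 := by
      nlinarith
    exact_mod_cast h13

lemma XNB_lip {N j : ℕ} (hN : 1 ≤ N) (hj : N ^ 3 ≤ j) :
    |fN N j - fN N (j + 6)| ≤ 6 / (N : ℝ) ^ 2 := by
  have hN0 : (0 : ℝ) < N := by exact_mod_cast hN
  have hj' : (N : ℝ) ^ 3 ≤ j := by exact_mod_cast hj
  have hj0 : (0 : ℝ) < j := lt_of_lt_of_le (by positivity) hj'
  have h1 : |Real.log j - Real.log ((j + 6 : ℕ) : ℝ)| ≤ 6 / j := by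
    rw [abs_sub_comm, ← Real.log_div (by positivity) (by positivity)]
    have e1 : (((j + 6 : ℕ) : ℝ)) / j = 1 + 6 / j := by
      push_cast
      field_simp
    rw [e1]
    have h2 := Real.log_le_sub_one_of_pos (show (0 : ℝ) < 1 + 6 / j by positivity)
    have h3 : 0 ≤ Real.log (1 + 6 / (j : ℝ)) := by
      apply Real.log_nonneg
      have : 0 < 6 / (j : ℝ) := by positivity
      linarith
    rw [abs_of_nonneg h3]
    linarith
  have h4 : 6 / (j : ℝ) ≤ 6 / (N : ℝ) ^ 3 := by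
    apply div_le_div_of_nonneg_left (by norm_num) (by positivity) hj'
  unfold fN tri
  rw [max_comm 0, max_comm 0]
  refine le_trans (abs_max_sub_max_le_abs _ _ _) ?_
  have e2 : 1 - |Real.log (j : ℝ) - vN N| / (1 / (N : ℝ)) -
      (1 - |Real.log ((j + 6 : ℕ) : ℝ) - vN N| / (1 / (N : ℝ))) =
      N * (|Real.log ((j + 6 : ℕ) : ℝ) - vN N| - |Real.log (j : ℝ) - vN N|) := by
    field_simp
    ring
  rw [e2, abs_mul, abs_of_pos hN0]
  have h5 := abs_abs_sub_abs_le_abs_sub (Real.log ((j + 6 : ℕ) : ℝ) - vN N)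
    (Real.log (j : ℝ) - vN N)
  have e3 : Real.log ((j + 6 : ℕ) : ℝ) - vN N - (Real.log (j : ℝ) - vN N) =
      Real.log ((j + 6 : ℕ) : ℝ) - Real.log (j : ℝ) := by ring
  rw [e3] at h5
  rw [abs_sub_comm] at h1
  calc (N : ℝ) * |(|Real.log ((j + 6 : ℕ) : ℝ) - vN N| - |Real.log (j : ℝ) - vN N|)|
      ≤ N * (6 / (N : ℝ) ^ 3) := mul_le_mul_of_nonneg_left (by linarith) hN0.le
    _ = 6 / (N : ℝ) ^ 2 := by field_simp

theorem XNB : XNB_stmt := by
  refine ⟨20, fun N hN => ?_⟩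
  have hN0 : (0 : ℝ) < N := by exact_mod_cast (show 0 < N by omega)
  have hN3 : (20 : ℝ) ≤ N := by exact_mod_cast hN
  refine ⟨?_, ?_, fun j => ⟨XNB_nonneg N j, XNB_le_one N j, fun hj h => XNB_supp hN hj h,
    fun hj => XNB_lip (by omega) hj⟩⟩
  · -- lower bound
    have hsub : Finset.Icc (N ^ 3 + N ^ 2) (N ^ 3 + N ^ 2 + N ^ 2 / 2) ⊆ Win N := by
      intro j hj
      rw [Finset.mem_Icc] at hj
      unfold Pool.Agent.CH.Win
      rw [Finset.mem_Ioc]
      have h1 : 0 < N ^ 2 := by positivity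
      have h2 : (N + 1) ^ 3 = N ^ 3 + 3 * N ^ 2 + 3 * N + 1 := by ring
      constructor
      · omega
      · rw [h2]; omega
    have h1 : ∑ j ∈ Finset.Icc (N ^ 3 + N ^ 2) (N ^ 3 + N ^ 2 + N ^ 2 / 2), fN N j ≤ XN N := by
      unfold XN
      exact Finset.sum_le_sum_of_subset_of_nonneg hsub fun j _ _ => XNB_nonneg N j
    have h2 : ∑ j ∈ Finset.Icc (N ^ 3 + N ^ 2) (N ^ 3 + N ^ 2 + N ^ 2 / 2), (1 / 2 : ℝ) ≤
        ∑ j ∈ Finset.Icc (N ^ 3 + N ^ 2) (N ^ 3 + N ^ 2 + N ^ 2 / 2), fN N j := by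
      refine Finset.sum_le_sum fun j hj => ?_
      rw [Finset.mem_Icc] at hj
      exact XNB_half (by omega) hj.1 (by omega)
    rw [Finset.sum_const, Nat.card_Icc, nsmul_eq_mul] at h2
    have h3 : N ^ 3 + N ^ 2 + N ^ 2 / 2 + 1 - (N ^ 3 + N ^ 2) = N ^ 2 / 2 + 1 := by omega
    rw [h3] at h2
    have h4 : N ^ 2 ≤ 2 * (N ^ 2 / 2 + 1) := by omega
    have h5 : (N : ℝ) ^ 2 ≤ 2 * ((N ^ 2 / 2 + 1 : ℕ) : ℝ) := by exact_mod_cast h4
    linarith
  · unfold XN
    have h1 : ∑ j ∈ Win N, fN N j ≤ ∑ j ∈ Win N, (1 : ℝ) :=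
      Finset.sum_le_sum fun j _ => XNB_le_one N j
    rw [Finset.sum_const, nsmul_eq_mul, mul_one] at h1
    refine le_trans h1 ?_
    unfold Pool.Agent.CH.Win
    rw [Nat.card_Ioc]
    have h2 : (N + 1) ^ 3 - N ^ 3 = 3 * N ^ 2 + 3 * N + 1 := by
      have : (N + 1) ^ 3 = N ^ 3 + (3 * N ^ 2 + 3 * N + 1) := by ring
      omega
    rw [h2]
    push_cast
    nlinarith

end Pool.Agent.EC
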